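import Mathlib
import Pool.Agent.H892.KT.Stm

/-!
# Composition of birational germs at the origin (helper101)
-/

set_option autoImplicit false

open Filter Topology Set
open scoped Manifold ContDiff

namespace Pool.Agent.H101.KT

open Pool.Agent.H892.KT

theorem rat_trans (h1 : S_RATCOMP) (e e' : OpenPartialHomeomorph (ℂ × ℂ) (ℂ × ℂ)) (p : ℂ × ℂ)
    (hp : p ∈ e.source) (hr : RatAt e p) (hr' : RatAt e' (e p)) : RatAt (e.trans e') p := by
  have h := h1 e p e' hp hr hr'
  have h2 : (e.trans e' : ℂ × ℂ → ℂ × ℂ) = fun q => e' (e q) := by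
    rw [OpenPartialHomeomorph.coe_trans]
    rfl
  rw [h2]
  exact h

theorem diff_trans (e e' : OpenPartialHomeomorph (ℂ × ℂ) (ℂ × ℂ))
    (hd : DifferentiableOn ℂ e e.source) (hd' : DifferentiableOn ℂ e' e'.source) :
    DifferentiableOn ℂ (e.trans e') (e.trans e').source := by
  rw [OpenPartialHomeomorph.coe_trans, OpenPartialHomeomorph.trans_source]
  exact hd'.comp (hd.mono inter_subset_left) fun p hp => hp.2

theorem t_JCOMP (h1 : S_RATCOMP) : S_JCOMP := by
  intro e e' he he'
  refine ⟨?_, ?_, diff_trans e e' he.diff he'.diff, ?_, ?_, ?_⟩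
  · rw [OpenPartialHomeomorph.trans_source]
    refine ⟨he.mem, ?_⟩
    rw [Set.mem_preimage, he.zero]
    exact he'.mem
  · rw [OpenPartialHomeomorph.coe_trans, Function.comp_apply, he.zero, he'.zero]
  · have h := diff_trans e'.symm e.symm he'.diff' he.diff'
    exact h
  · intro p hp
    rw [OpenPartialHomeomorph.trans_source] at hp
    exact rat_trans h1 e e' p hp.1 (he.rat p hp.1) (he'.rat _ hp.2)
  · intro p hp
    have hp' : p ∈ (e'.symm.trans e.symm).source := hp
    rw [OpenPartialHomeomorph.trans_source] at hp'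
    exact rat_trans h1 e'.symm e.symm p hp'.1 (he'.rat' p hp'.1) (he.rat' _ hp'.2)

end Pool.Agent.H101.KT
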